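import Mathlib

/-!
MP_511249_co, Q1: the difference `i_h(G) - i_bn(G)` is unbounded over connected graphs.
The graphs are thick paths: `9m` positions, every position holds `9m` pairwise nonadjacent
vertices, and vertices at consecutive positions are adjacent.
-/

namespace Pool.Agent.Results.MP_511249_co.HearingVsBoundary

open Finset

section Defs

variable {V : Type} [Fintype V]

/-- Eccentricity of a vertex. -/
noncomputable def ecc (G : SimpleGraph V) (v : V) : ℕ :=
  Finset.univ.sup (fun w => G.dist v w)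

/-- A broadcast: `f v ≤ e(v)` for all `v` if `|V| ≥ 2`, and `f v = 1` if `V = {v}`. -/
def IsBroadcast (G : SimpleGraph V) (f : V → ℕ) : Prop :=
  (2 ≤ Fintype.card V → ∀ v, f v ≤ ecc G v) ∧ (Fintype.card V = 1 → ∀ v, f v = 1)

/-- `x` hears `f` from the broadcasting vertex `v`. -/
def Hears (G : SimpleGraph V) (f : V → ℕ) (x v : V) : Prop :=
  0 < f v ∧ G.dist x v ≤ f v

/-- Boundary independence. -/
def BnIndep (G : SimpleGraph V) (f : V → ℕ) : Prop :=
  ∀ x, (∃ u v, u ≠ v ∧ Hears G f x u ∧ Hears G f x v) →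
    ∀ u, 0 < f u → f u ≤ G.dist x u

/-- Hearing independence: no broadcasting vertex hears another one. -/
def HearIndep (G : SimpleGraph V) (f : V → ℕ) : Prop :=
  ∀ u v, u ≠ v → 0 < f u → ¬ Hears G f u v

/-- `f` is a maximal broadcast with property `P`. -/
def IsMaximalBroadcast (G : SimpleGraph V) (P : (V → ℕ) → Prop) (f : V → ℕ) : Prop :=
  IsBroadcast G f ∧ P f ∧ ∀ g : V → ℕ, IsBroadcast G g → P g → (∀ v, f v ≤ g v) → g = f

/-- Minimum cost of a maximal bn-independent broadcast. -/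
noncomputable def ibn (G : SimpleGraph V) : ℕ :=
  sInf {c | ∃ f : V → ℕ, IsMaximalBroadcast G (BnIndep G) f ∧ ∑ v, f v = c}

/-- Minimum cost of a maximal hearing independent broadcast. -/
noncomputable def ih (G : SimpleGraph V) : ℕ :=
  sInf {c | ∃ f : V → ℕ, IsMaximalBroadcast G (HearIndep G) f ∧ ∑ v, f v = c}

end Defs

/-- The thick path. -/
def thick (n L : ℕ) : SimpleGraph (Fin n × Fin L) where
  Adj x y := (x.1 : ℕ) + 1 = y.1 ∨ (y.1 : ℕ) + 1 = x.1
  symm := ⟨fun _ _ h => h.symm⟩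
  loopless := ⟨fun x h => by rcases h with h | h <;> omega⟩

def pd (x y : ℕ) : ℕ := (x - y) + (y - x)

section Thick

variable {n L : ℕ}

lemma walk_len {u v : Fin n × Fin L} (p : (thick n L).Walk u v) :
    pd u.1 v.1 ≤ p.length := by
  induction p with
  | nil => simp [pd]
  | cons h p ih =>
    rw [SimpleGraph.Walk.length_cons]
    rcases h with h | h <;> (unfold pd at *; omega)

lemma exists_walk (d : ℕ) : ∀ u v : Fin n × Fin L, pd u.1 v.1 = d + 1 →
    ∃ p : (thick n L).Walk u v, p.length = d + 1 := by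
  induction d with
  | zero =>
    intro u v h
    have hadj : (thick n L).Adj u v := by
      show (u.1 : ℕ) + 1 = v.1 ∨ (v.1 : ℕ) + 1 = u.1
      unfold pd at h; omega
    exact ⟨SimpleGraph.Walk.cons hadj .nil, by simp⟩
  | succ d ih =>
    intro u v h
    have hu := u.1.isLt
    have hv := v.1.isLt
    rcases Nat.lt_or_ge (u.1 : ℕ) v.1 with hlt | hge
    · have hlt' : (u.1 : ℕ) + 1 < n := by omega
      let w : Fin n × Fin L := (⟨u.1 + 1, hlt'⟩, u.2)
      have hadj : (thick n L).Adj u w := Or.inl rfl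
      have hw : pd w.1 v.1 = d + 1 := by
        show pd ((u.1 : ℕ) + 1) v.1 = d + 1
        unfold pd at *; omega
      obtain ⟨p, hp⟩ := ih w v hw
      exact ⟨SimpleGraph.Walk.cons hadj p, by simp [hp]⟩
    · have h1 : 1 ≤ (u.1 : ℕ) := by unfold pd at h; omega
      have hlt' : (u.1 : ℕ) - 1 < n := by omega
      let w : Fin n × Fin L := (⟨u.1 - 1, hlt'⟩, u.2)
      have hadj : (thick n L).Adj u w := Or.inr (by show (u.1 : ℕ) - 1 + 1 = u.1; omega)
      have hw : pd w.1 v.1 = d + 1 := by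
        show pd ((u.1 : ℕ) - 1) v.1 = d + 1
        unfold pd at *; omega
      obtain ⟨p, hp⟩ := ih w v hw
      exact ⟨SimpleGraph.Walk.cons hadj p, by simp [hp]⟩

lemma exists_walk_same (hn : 2 ≤ n) (u v : Fin n × Fin L) (h : (u.1 : ℕ) = v.1) :
    ∃ p : (thick n L).Walk u v, p.length = 2 := by
  have hu := u.1.isLt
  have : ∃ w : Fin n × Fin L, (thick n L).Adj u w ∧ (thick n L).Adj w v := by
    rcases Nat.lt_or_ge ((u.1 : ℕ) + 1) n with h1 | h1
    · exact ⟨(⟨u.1 + 1, h1⟩, u.2), Or.inl rfl, Or.inr (by show (v.1 : ℕ) + 1 = u.1 + 1; omega)⟩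
    · exact ⟨(⟨u.1 - 1, by omega⟩, u.2), Or.inr (by show (u.1 : ℕ) - 1 + 1 = u.1; omega),
        Or.inl (by show (u.1 : ℕ) - 1 + 1 = v.1; omega)⟩
  obtain ⟨w, h1, h2⟩ := this
  exact ⟨SimpleGraph.Walk.cons h1 (SimpleGraph.Walk.cons h2 .nil), by simp⟩

lemma connected (hn : 2 ≤ n) (hL : 0 < L) : (thick n L).Connected := by
  have : Nonempty (Fin n × Fin L) := ⟨(⟨0, by omega⟩, ⟨0, hL⟩)⟩
  rw [SimpleGraph.connected_iff]
  refine ⟨fun u v => ?_, inferInstance⟩
  by_cases h : (u.1 : ℕ) = v.1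
  · exact ⟨(exists_walk_same hn u v h).choose⟩
  · have h1 : pd u.1 v.1 = (pd u.1 v.1 - 1) + 1 := by unfold pd; omega
    exact ⟨(exists_walk _ u v h1).choose⟩

lemma dist_ne (hn : 2 ≤ n) (hL : 0 < L) (u v : Fin n × Fin L) (h : (u.1 : ℕ) ≠ v.1) :
    (thick n L).dist u v = pd u.1 v.1 := by
  apply le_antisymm
  · have h1 : pd u.1 v.1 = (pd u.1 v.1 - 1) + 1 := by unfold pd; omega
    obtain ⟨p, hp⟩ := exists_walk _ u v h1
    have := SimpleGraph.dist_le p
    omega
  · obtain ⟨p, hp⟩ := ((connected hn hL).preconnected u v).exists_walk_length_eq_dist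
    rw [← hp]; exact walk_len p

lemma dist_same (hn : 2 ≤ n) (hL : 0 < L) (u v : Fin n × Fin L) (h : (u.1 : ℕ) = v.1)
    (huv : u ≠ v) : (thick n L).dist u v = 2 := by
  obtain ⟨p, hp⟩ := exists_walk_same hn u v h
  have h1 := SimpleGraph.dist_le p
  have hc := connected hn hL (L := L)
  have h0 : (thick n L).dist u v ≠ 0 := by
    intro h0
    exact huv ((hc.dist_eq_zero_iff).mp h0)
  have h2 : (thick n L).dist u v ≠ 1 := by
    intro h2
    rw [SimpleGraph.dist_eq_one_iff_adj] at h2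
    rcases h2 with h2 | h2 <;> omega
  omega

lemma dist_ge_pd (hn : 2 ≤ n) (hL : 0 < L) (u v : Fin n × Fin L) :
    pd u.1 v.1 ≤ (thick n L).dist u v := by
  by_cases h : (u.1 : ℕ) = v.1
  · unfold pd; omega
  · exact (dist_ne hn hL u v h).ge

end Thick

section Upper

variable {n L : ℕ}

/-- The cheap broadcast. -/
def cheap (n L : ℕ) (x : Fin n × Fin L) : ℕ :=
  if (x.2 : ℕ) = 0 ∧ ((x.1 : ℕ) % 9 = 2 ∨ (x.1 : ℕ) % 9 = 6) then 2 else 0

lemma cheap_pos {x : Fin n × Fin L} (h : 0 < cheap n L x) :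
    cheap n L x = 2 ∧ (x.2 : ℕ) = 0 ∧ ((x.1 : ℕ) % 9 = 2 ∨ (x.1 : ℕ) % 9 = 6) := by
  unfold cheap at *
  split_ifs at h ⊢ with h1
  · exact ⟨rfl, h1⟩
  · omega

lemma sum_pattern (m : ℕ) :
    ∑ i ∈ range (9 * m), (if i % 9 = 2 ∨ i % 9 = 6 then 2 else 0) = 4 * m := by
  induction m with
  | zero => simp
  | succ m ih =>
    have h : 9 * (m + 1) = 9 * m + 1 + 1 + 1 + 1 + 1 + 1 + 1 + 1 + 1 := by ring
    rw [h]
    simp only [Finset.sum_range_succ, ih]
    have e : ∀ j, j < 9 → (9 * m + j) % 9 = j := by intro j hj; omega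
    have e0 := e 0 (by omega)
    have e1 := e 1 (by omega)
    have e2 := e 2 (by omega)
    have e3 := e 3 (by omega)
    have e4 := e 4 (by omega)
    have e5 := e 5 (by omega)
    have e6 := e 6 (by omega)
    have e7 := e 7 (by omega)
    have e8 := e 8 (by omega)
    simp only [Nat.add_assoc, Nat.reduceAdd] at *
    simp [e0, e1, e2, e3, e4, e5, e6, e7, e8]
    ring

lemma cheap_cost (m L : ℕ) (hL : 0 < L) : ∑ x, cheap (9 * m) L x = 4 * m := by
  rw [Fintype.sum_prod_type]
  have h : ∀ i : Fin (9 * m), ∑ j : Fin L, cheap (9 * m) L (i, j)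
      = if (i : ℕ) % 9 = 2 ∨ (i : ℕ) % 9 = 6 then 2 else 0 := by
    intro i
    rw [Finset.sum_eq_single (⟨0, hL⟩ : Fin L)]
    · simp [cheap]
    · intro j _ hj
      have : (j : ℕ) ≠ 0 := fun h => hj (Fin.ext h)
      simp [cheap, this]
    · simp
  rw [Finset.sum_congr rfl (fun i _ => h i)]
  rw [Fin.sum_univ_eq_sum_range (fun i => if i % 9 = 2 ∨ i % 9 = 6 then 2 else 0) (9 * m)]
  exact sum_pattern m

lemma dist_le_ecc {V : Type} [Fintype V] (G : SimpleGraph V) (u v : V) :
    G.dist u v ≤ ecc G u := by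
  unfold ecc
  exact Finset.le_sup (f := fun w => G.dist u w) (Finset.mem_univ v)

lemma pd_le_ecc (hn : 2 ≤ n) (hL : 0 < L) (u : Fin n × Fin L) (q : ℕ) (hq : q < n) :
    pd u.1 q ≤ ecc (thick n L) u := by
  let v : Fin n × Fin L := (⟨q, hq⟩, ⟨0, hL⟩)
  exact le_trans (dist_ge_pd hn hL u v) (dist_le_ecc _ u v)

lemma cheap_maximal (m L : ℕ) (hm : 0 < m) (hL : 0 < L) :
    IsMaximalBroadcast (thick (9 * m) L) (BnIndep (thick (9 * m) L)) (cheap (9 * m) L) := by
  have hn : 2 ≤ 9 * m := by omega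
  refine ⟨⟨fun _ v => ?_, fun h => ?_⟩, ?_, ?_⟩
  · by_cases h0 : 0 < cheap (9 * m) L v
    · obtain ⟨h1, _, h2⟩ := cheap_pos h0
      rw [h1]
      have := pd_le_ecc hn hL v 0 (by omega)
      unfold pd at this
      omega
    · omega
  · exfalso
    have h2 : Fintype.card (Fin (9 * m) × Fin L) = 9 * m * L := by simp
    have : 9 * m * L ≥ 9 * 1 * 1 := Nat.mul_le_mul (Nat.mul_le_mul le_rfl hm) hL
    omega
  · rintro x ⟨u, v, huv, ⟨hu0, hu⟩, ⟨hv0, hv⟩⟩ w hw0
    obtain ⟨hu1, hu2, hu3⟩ := cheap_pos hu0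
    obtain ⟨hv1, hv2, hv3⟩ := cheap_pos hv0
    obtain ⟨hw1, hw2, hw3⟩ := cheap_pos hw0
    have huv' : (u.1 : ℕ) ≠ v.1 := by
      intro h
      exact huv (Prod.ext (Fin.ext h) (Fin.ext (by omega)))
    have h1 := dist_ge_pd hn hL x u
    have h2 := dist_ge_pd hn hL x v
    have h3 := dist_ge_pd hn hL x w
    rw [hu1] at hu
    rw [hv1] at hv
    rw [hw1]
    unfold pd at h1 h2 h3
    omega
  · intro g hgb hg hfg
    by_contra hne
    have : ∃ v, cheap (9 * m) L v ≠ g v := by
      by_contra h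
      push Not at h
      exact hne (funext fun v => (h v).symm)
    obtain ⟨v, hv⟩ := this
    have hlt : cheap (9 * m) L v < g v := lt_of_le_of_ne (hfg v) hv
    have hvlt := v.1.isLt
    by_cases h0 : 0 < cheap (9 * m) L v
    · obtain ⟨hv1, hv2, hv3⟩ := cheap_pos h0
      -- partner and the common boundary position
      obtain ⟨a, b, ha, hb, hva, hab, hb9, hvb⟩ : ∃ a b : ℕ, a < 9 * m ∧ b < 9 * m ∧
          pd a v.1 = 2 ∧ pd a b = 2 ∧ (b % 9 = 2 ∨ b % 9 = 6) ∧ (v.1 : ℕ) ≠ b := by
        rcases hv3 with h | h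
        · exact ⟨v.1 + 2, v.1 + 4, by omega, by omega, by unfold pd; omega,
            by unfold pd; omega, by omega, by omega⟩
        · exact ⟨v.1 - 2, v.1 - 4, by omega, by omega, by unfold pd; omega,
            by unfold pd; omega, by omega, by omega⟩
      let x : Fin (9 * m) × Fin L := (⟨a, ha⟩, ⟨0, hL⟩)
      let w : Fin (9 * m) × Fin L := (⟨b, hb⟩, ⟨0, hL⟩)
      have hw1 : cheap (9 * m) L w = 2 := by
        simp only [cheap, w]
        simp [hb9]
      have hxv : (thick (9 * m) L).dist x v = 2 := by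
        rw [dist_ne hn hL x v (by show a ≠ v.1; unfold pd at hva; omega)]
        exact hva
      have hxw : (thick (9 * m) L).dist x w = 2 := by
        rw [dist_ne hn hL x w (by show a ≠ b; unfold pd at hab; omega)]
        exact hab
      have hvw : v ≠ w := by
        intro h
        apply hvb
        have : (v.1 : ℕ) = w.1 := by rw [h]
        exact this
      have hgw := hfg w
      have := hg x ⟨v, w, hvw, ⟨by omega, by omega⟩, ⟨by omega, by omega⟩⟩ v (by omega)
      omega
    · -- a vertex which covers the position of `v`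
      obtain ⟨b, hb, hb9, hpd⟩ : ∃ b : ℕ, b < 9 * m ∧ (b % 9 = 2 ∨ b % 9 = 6) ∧
          pd v.1 b ≤ 2 := by
        have h9 : (v.1 : ℕ) % 9 < 9 := Nat.mod_lt _ (by omega)
        rcases Nat.lt_or_ge ((v.1 : ℕ) % 9) 5 with h | h
        · refine ⟨v.1 / 9 * 9 + 2, by omega, by omega, by unfold pd; omega⟩
        · refine ⟨v.1 / 9 * 9 + 6, by omega, by omega, by unfold pd; omega⟩
      let w : Fin (9 * m) × Fin L := (⟨b, hb⟩, ⟨0, hL⟩)
      have hw1 : cheap (9 * m) L w = 2 := by
        simp only [cheap, w]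
        simp [hb9]
      have hvw : v ≠ w := by
        intro h
        rw [h, hw1] at h0
        omega
      have hgw := hfg w
      have hd : (thick (9 * m) L).dist v w ≤ 2 := by
        by_cases h : (v.1 : ℕ) = w.1
        · exact (dist_same hn hL v w h hvw).le
        · rw [dist_ne hn hL v w h]; exact hpd
      have := hg v ⟨v, w, hvw, ⟨by omega, by simp⟩, ⟨by omega, by omega⟩⟩ v (by omega)
      rw [SimpleGraph.dist_self] at this
      omega

lemma ibn_le (m L : ℕ) (hm : 0 < m) (hL : 0 < L) : ibn (thick (9 * m) L) ≤ 4 * m := by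
  unfold ibn
  exact Nat.sInf_le ⟨_, cheap_maximal m L hm hL, cheap_cost m L hL⟩

end Upper

section Lower

variable {n L : ℕ}

lemma ball_card (n x r : ℕ) : #{p ∈ range n | pd p x ≤ r} ≤ 2 * r + 1 := by
  have : {p ∈ range n | pd p x ≤ r} ⊆ Finset.Icc (x - r) (x + r) := by
    intro p hp
    rw [Finset.mem_filter] at hp
    rw [Finset.mem_Icc]
    unfold pd at hp
    omega
  refine le_trans (Finset.card_le_card this) ?_
  rw [Nat.card_Icc]
  omega

lemma maximal_step {V : Type} [Fintype V] (G : SimpleGraph V) (f : V → ℕ)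
    (hV : 2 ≤ Fintype.card V)
    (hf : IsMaximalBroadcast G (HearIndep G) f) (v : V) (hv : f v < ecc G v) :
    (f v = 0 ∧ ∃ w, w ≠ v ∧ 0 < f w ∧ G.dist v w ≤ f w) ∨
      (∃ u, u ≠ v ∧ 0 < f u ∧ G.dist u v ≤ f v + 1) := by
  classical
  obtain ⟨hb, hi, hmax⟩ := hf
  by_contra hcon
  push Not at hcon
  obtain ⟨hc1, hc2⟩ := hcon
  let g : V → ℕ := Function.update f v (f v + 1)
  have hgv : g v = f v + 1 := by simp [g]
  have hgo : ∀ w, w ≠ v → g w = f w := fun w hw => by simp [g, hw]
  have hgb : IsBroadcast G g := by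
    refine ⟨fun _ w => ?_, fun h => by omega⟩
    by_cases hw : w = v
    · subst hw; rw [hgv]; omega
    · rw [hgo w hw]; exact hb.1 hV w
  have hgi : HearIndep G g := by
    rintro u w huw hu ⟨hw, hd⟩
    by_cases hwv : w = v
    · subst hwv
      rw [hgo u huw] at hu
      rw [hgv] at hd
      have := hc2 u huw hu
      omega
    · rw [hgo w hwv] at hw hd
      by_cases huv : u = v
      · subst huv
        by_cases h0 : f u = 0
        · have := hc1 h0 w hwv hw
          omega
        · exact hi u w huw (by omega) ⟨hw, hd⟩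
      · rw [hgo u huv] at hu
        exact hi u w huw hu ⟨hw, hd⟩
  have := hmax g hgb hgi (fun w => by
    by_cases hw : w = v
    · subst hw; omega
    · rw [hgo w hw])
  have h2 := congrFun this v
  omega

lemma ih_lower (hn : 3 ≤ n) (hL : n ≤ L) (f : Fin n × Fin L → ℕ)
    (hf : IsMaximalBroadcast (thick n L) (HearIndep (thick n L)) f) :
    n ≤ 2 * ∑ v, f v + 1 := by
  classical
  by_contra hcon
  push Not at hcon
  have hn2 : 2 ≤ n := by omega
  have hL0 : 0 < L := by omega
  have hcard : 2 ≤ Fintype.card (Fin n × Fin L) := by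
    have h2 : Fintype.card (Fin n × Fin L) = n * L := by simp
    have : n * L ≥ 2 * 1 := Nat.mul_le_mul hn2 hL0
    omega
  have hstep := maximal_step (thick n L) f hcard hf
  obtain ⟨hb, hi, -⟩ := hf
  have hle : ∀ v, f v ≤ ∑ v, f v := fun v =>
    Finset.single_le_sum (f := f) (fun _ _ => Nat.zero_le _) (Finset.mem_univ v)
  -- eccentricities are large
  have hecc : ∀ v : Fin n × Fin L, n ≤ 2 * ecc (thick n L) v + 1 := by
    intro v
    have h1 := pd_le_ecc hn2 hL0 v 0 (by omega)
    have h2 := pd_le_ecc hn2 hL0 v (n - 1) (by omega)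
    have := v.1.isLt
    unfold pd at h1 h2
    omega
  have hlt : ∀ v, f v < ecc (thick n L) v := by
    intro v
    have h1 := hle v
    have h2 := hecc v
    omega
  -- every position holds a vertex which does not broadcast
  have hfree : ∀ p : Fin n, ∃ b : Fin L, f (p, b) = 0 := by
    intro p
    by_contra h
    push Not at h
    have h1 : ∑ v, f v = ∑ i : Fin n, ∑ j : Fin L, f (i, j) := Fintype.sum_prod_type _
    have h2 : ∑ j : Fin L, f (p, j) ≤ ∑ i : Fin n, ∑ j : Fin L, f (i, j) :=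
      Finset.single_le_sum (f := fun i => ∑ j : Fin L, f (i, j)) (fun _ _ => Nat.zero_le _)
        (Finset.mem_univ p)
    have h3 : ∑ j : Fin L, 1 ≤ ∑ j : Fin L, f (p, j) :=
      Finset.sum_le_sum (fun j _ => Nat.one_le_iff_ne_zero.mpr (h j))
    have h4 : ∑ j : Fin L, 1 = L := by simp
    omega
  -- coverage
  have hcov : ∀ v, f v = 0 → ∃ w, w ≠ v ∧ 0 < f w ∧ (thick n L).dist v w ≤ f w := by
    intro v hv
    rcases hstep v (hlt v) with ⟨_, h⟩ | ⟨u, h1, h2, h3⟩
    · exact h
    · exact ⟨u, h1, h2, by rw [SimpleGraph.dist_comm]; omega⟩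
  -- values are at least two
  have hsame : ∀ v w, v ≠ w → (v.1 : ℕ) = w.1 → 0 < f v → 0 < f w → f w = 1 := by
    intro v w hvw hp hv hw
    have h1 := dist_same hn2 hL0 v w hp hvw
    by_contra h
    exact hi v w hvw hv ⟨hw, by omega⟩
  have htwo : ∀ v, 0 < f v → 2 ≤ f v := by
    intro v hv
    by_contra h
    have hv1 : f v = 1 := by omega
    obtain ⟨b, hb0⟩ := hfree v.1
    obtain ⟨w, hw1, hw2, hw3⟩ := hcov (v.1, b) hb0
    by_cases hp : ((v.1, b) : Fin n × Fin L).1 = w.1
    · have hp' : (((v.1, b) : Fin n × Fin L).1 : ℕ) = w.1 := by rw [hp]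
      rw [dist_same hn2 hL0 _ w hp' hw1.symm] at hw3
      have hvw : v ≠ w := by
        rintro rfl
        omega
      have := hsame v w hvw (by simpa using hp') hv hw2
      omega
    · have hp' : (((v.1, b) : Fin n × Fin L).1 : ℕ) ≠ w.1 := fun h => hp (Fin.ext h)
      rw [dist_ne hn2 hL0 _ w hp'] at hw3
      have hp2 : (v.1 : ℕ) ≠ w.1 := hp'
      have hvw : v ≠ w := by
        rintro rfl
        exact hp2 rfl
      exact hi v w hvw hv ⟨hw2, by rw [dist_ne hn2 hL0 v w hp2]; exact hw3⟩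
  have huniq : ∀ v w, 0 < f v → 0 < f w → (v.1 : ℕ) = w.1 → v = w := by
    intro v w hv hw hp
    by_contra hvw
    have := hsame v w hvw hp hv hw
    have := htwo w hw
    omega
  have hsep : ∀ v w, v ≠ w → 0 < f v → 0 < f w → f w < pd v.1 w.1 := by
    intro v w hvw hv hw
    by_contra h
    have hp : (v.1 : ℕ) ≠ w.1 := fun h => hvw (huniq v w hv hw h)
    exact hi v w hvw hv ⟨hw, by rw [dist_ne hn2 hL0 v w hp]; omega⟩
  -- partners
  have hpart : ∀ v, 0 < f v → ∃ u, 0 < f u ∧ pd v.1 u.1 = f v + 1 := by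
    intro v hv
    rcases hstep v (hlt v) with ⟨h0, _⟩ | ⟨u, h1, h2, h3⟩
    · omega
    · refine ⟨u, h2, ?_⟩
      have h4 := dist_ge_pd hn2 hL0 u v
      have h5 := hsep u v h1 h2 hv
      unfold pd at h4 h5 ⊢
      omega
  have hposcov : ∀ p < n, ∃ w, 0 < f w ∧ pd p w.1 ≤ f w := by
    intro p hp
    obtain ⟨b, hb0⟩ := hfree ⟨p, hp⟩
    obtain ⟨w, hw1, hw2, hw3⟩ := hcov (⟨p, hp⟩, b) hb0
    exact ⟨w, hw2, le_trans (dist_ge_pd hn2 hL0 (⟨p, hp⟩, b) w) hw3⟩
  -- the counting argument
  have hchoose : ∀ v : Fin n × Fin L, ∃ q : ℕ, 0 < f v → q < n ∧ pd q v.1 = f v ∧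
      ∃ u, u ≠ v ∧ 0 < f u ∧ pd q u.1 = 1 ∧ pd v.1 u.1 = f v + 1 := by
    intro v
    by_cases hv : 0 < f v
    · obtain ⟨u, hu1, hu2⟩ := hpart v hv
      have hul := u.1.isLt
      have hvl := v.1.isLt
      have huv : u ≠ v := by
        rintro rfl
        unfold pd at hu2
        omega
      rcases Nat.lt_or_ge (v.1 : ℕ) u.1 with h | h
      · exact ⟨v.1 + f v, fun _ => ⟨by unfold pd at hu2; omega, by unfold pd; omega,
          u, huv, hu1, by unfold pd at *; omega, hu2⟩⟩
      · exact ⟨v.1 - f v, fun _ => ⟨by unfold pd at hu2; omega, by unfold pd at *; omega,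
          u, huv, hu1, by unfold pd at *; omega, hu2⟩⟩
    · exact ⟨0, fun h => absurd h hv⟩
  choose P hP using hchoose
  let S : Finset (Fin n × Fin L) := Finset.univ.filter (fun v => 0 < f v)
  have hS : ∀ v, v ∈ S ↔ 0 < f v := fun v => by simp [S]
  have hinj : Set.InjOn P S := by
    intro v hv w hw hvw
    have hv0 : 0 < f v := (hS v).mp hv
    have hw0 : 0 < f w := (hS w).mp hw
    obtain ⟨hv1, hv2, u, hu1, hu2, hu3, hu4⟩ := hP v hv0
    obtain ⟨hw1, hw2, t, ht1, ht2, ht3, ht4⟩ := hP w hw0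
    by_contra hne
    have hs1 := hsep v w hne hv0 hw0
    have hs2 := hsep w v (Ne.symm hne) hw0 hv0
    rw [hvw] at hv2 hu3
    by_cases hut : u = t
    · subst hut
      unfold pd at *
      omega
    · have hs3 := hsep u t hut hu2 ht2
      have hs4 := hsep t u (Ne.symm hut) ht2 hu2
      have h5 := htwo u hu2
      have h6 := htwo t ht2
      unfold pd at *
      omega
  have hcount : n + #S ≤ ∑ v ∈ S, (2 * f v + 1) := by
    calc n + #S = ∑ p ∈ range n, (1 + if p ∈ S.image P then 1 else 0) := by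
          rw [Finset.sum_add_distrib]
          congr 1
          · simp
          · rw [← Finset.card_image_of_injOn hinj, ← Finset.sum_filter,
              Finset.card_eq_sum_ones]
            apply Finset.sum_congr _ (fun _ _ => rfl)
            ext p
            rw [Finset.mem_filter, Finset.mem_range]
            constructor
            · intro hp
              refine ⟨?_, hp⟩
              rw [Finset.mem_image] at hp
              obtain ⟨v, hv, rfl⟩ := hp
              exact (hP v ((hS v).mp hv)).1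
            · exact fun h => h.2
      _ ≤ ∑ p ∈ range n, #{v ∈ S | pd p v.1 ≤ f v} := by
          apply Finset.sum_le_sum
          intro p hp
          rw [Finset.mem_range] at hp
          split_ifs with h
          · rw [Finset.mem_image] at h
            obtain ⟨v, hv, rfl⟩ := h
            have hv0 : 0 < f v := (hS v).mp hv
            obtain ⟨hv1, hv2, u, hu1, hu2, hu3, hu4⟩ := hP v hv0
            have hsub : ({v, u} : Finset (Fin n × Fin L)) ⊆ {v' ∈ S | pd (P v) v'.1 ≤ f v'} := by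
              intro z hz
              rw [Finset.mem_insert, Finset.mem_singleton] at hz
              rw [Finset.mem_filter]
              rcases hz with rfl | rfl
              · exact ⟨hv, by omega⟩
              · exact ⟨(hS _).mpr hu2, by omega⟩
            have h2 := Finset.card_le_card hsub
            rw [Finset.card_pair (Ne.symm hu1)] at h2
            omega
          · obtain ⟨w, hw1, hw2⟩ := hposcov p hp
            have : 0 < #{v ∈ S | pd p v.1 ≤ f v} := by
              rw [Finset.card_pos]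
              exact ⟨w, by rw [Finset.mem_filter]; exact ⟨(hS w).mpr hw1, hw2⟩⟩
            omega
      _ = ∑ v ∈ S, #{p ∈ range n | pd p v.1 ≤ f v} := by
          simp only [Finset.card_filter]
          rw [Finset.sum_comm]
      _ ≤ ∑ v ∈ S, (2 * f v + 1) := Finset.sum_le_sum (fun v _ => ball_card n v.1 (f v))
  have hsum : ∑ v ∈ S, (2 * f v + 1) = 2 * ∑ v ∈ S, f v + #S := by
    rw [Finset.sum_add_distrib, Finset.mul_sum]
    simp
  have hsum2 : ∑ v ∈ S, f v ≤ ∑ v, f v :=
    Finset.sum_le_sum_of_subset (Finset.subset_univ S)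
  omega

lemma exists_hearing {V : Type} [Fintype V] [Nonempty V] (G : SimpleGraph V)
    (hV : 2 ≤ Fintype.card V) (hG : G.Connected) :
    ∃ f : V → ℕ, IsMaximalBroadcast G (HearIndep G) f := by
  classical
  obtain ⟨v⟩ := ‹Nonempty V›
  have hpos : 0 < ecc G v := by
    haveI : Nontrivial V := Fintype.one_lt_card_iff_nontrivial.mp (by omega)
    obtain ⟨w, hw⟩ := exists_ne v
    have h1 : 0 < G.dist v w := hG.pos_dist_of_ne hw.symm
    exact lt_of_lt_of_le h1 (dist_le_ecc G v w)
  let f : V → ℕ := fun x => if x = v then ecc G v else 0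
  have hfv : f v = ecc G v := by simp [f]
  have hfo : ∀ x, x ≠ v → f x = 0 := fun x hx => by simp [f, hx]
  refine ⟨f, ⟨fun _ x => ?_, fun h => by omega⟩, ?_, ?_⟩
  · by_cases hx : x = v
    · subst hx; rw [hfv]
    · rw [hfo x hx]; exact Nat.zero_le _
  · rintro u w huw hu ⟨hw, _⟩
    have h1 : u = v := by
      by_contra h
      rw [hfo u h] at hu
      omega
    have h2 : w = v := by
      by_contra h
      rw [hfo w h] at hw
      omega
    exact huw (h1.trans h2.symm)
  · intro g hgb hg hfg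
    have hgv : g v = ecc G v := le_antisymm (hgb.1 hV v) (by rw [← hfv]; exact hfg v)
    funext x
    by_cases hx : x = v
    · subst hx; rw [hfv, hgv]
    · rw [hfo x hx]
      by_contra h
      refine hg x v hx (Nat.pos_of_ne_zero h) ⟨by omega, ?_⟩
      rw [hgv, SimpleGraph.dist_comm]
      exact dist_le_ecc G v x

lemma le_ih (hn : 3 ≤ n) (hL : n ≤ L) : n ≤ 2 * ih (thick n L) + 1 := by
  have hn2 : 2 ≤ n := by omega
  have hL0 : 0 < L := by omega
  haveI : Nonempty (Fin n × Fin L) := ⟨(⟨0, by omega⟩, ⟨0, hL0⟩)⟩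
  have hcard : 2 ≤ Fintype.card (Fin n × Fin L) := by
    have h2 : Fintype.card (Fin n × Fin L) = n * L := by simp
    have : n * L ≥ 2 * 1 := Nat.mul_le_mul hn2 hL0
    omega
  have hne : {c | ∃ f : Fin n × Fin L → ℕ,
      IsMaximalBroadcast (thick n L) (HearIndep (thick n L)) f ∧ ∑ v, f v = c}.Nonempty := by
    obtain ⟨f, hf⟩ := exists_hearing (thick n L) hcard (connected hn2 hL0)
    exact ⟨_, f, hf, rfl⟩
  obtain ⟨f, hf, hc⟩ := Nat.sInf_mem hne
  have := ih_lower hn hL f hf
  unfold ih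
  rw [← hc]
  exact this

end Lower

/-- For every `k` there is a finite connected graph `G` with `i_h(G) - i_bn(G) ≥ k`. -/
theorem result :
    ∀ k : ℕ, ∃ (V : Type) (_ : Fintype V) (G : SimpleGraph V),
      G.Connected ∧ ibn G + k ≤ ih G := by
  intro k
  refine ⟨Fin (9 * (2 * k + 1)) × Fin (9 * (2 * k + 1)), inferInstance,
    thick (9 * (2 * k + 1)) (9 * (2 * k + 1)), connected (by omega) (by omega), ?_⟩
  have h1 := ibn_le (2 * k + 1) (9 * (2 * k + 1)) (by omega) (by omega)
  have h2 := le_ih (n := 9 * (2 * k + 1)) (L := 9 * (2 * k + 1)) (by omega) le_rfl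
  omega

end Pool.Agent.Results.MP_511249_co.HearingVsBoundary
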